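import Pool.Agent.helper62.VN.SpecE
import Pool.Agent.helper57.VQE.SYN

/-!
# Project VN (MP_07c750_an), block 5, row NSY: synchronised pairs are orbits (after SYN of helper57)
-/

set_option autoImplicit false

open scoped MatrixGroups ContDiff Topology UpperHalfPlane
open UpperHalfPlane MeasureTheory Filter Set

namespace Pool.Agent.VNE

open Pool.Agent.RS Pool.Agent.VQE

noncomputable section

/-- the algebra of the synchronised system -/
theorem NSY_alg {p q : SL(2, ℝ) → ℝ} (g : SL(2, ℝ)) {b c : ℝ}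
    (h : 0 < √(1 + b * c) * p (g * dg b c) + (b + c) * q (g * dg b c)) :
    √(1 + b * c) * (p (g * dg b c) * sg p q g b c - p g) + (b + c) * (q (g * dg b c) * sg p q g b c + q g) = 0 := by
  unfold sg
  field_simp
  ring

/-- the derivative of the second orbit -/
theorem NSY_D2 {p q : SL(2, ℝ) → ℝ} {f : ℝ → SL(2, ℝ) → SL(2, ℝ)}
    (hf : Flw p q f) {g : SL(2, ℝ)} {x y : ℝ → ℝ} {t : ℝ}
    (hdx : HasDerivAt x (-(x t) - hu p q (f t g) (x t) (y t)) t)
    (hdy : HasDerivAt y (y t + hv p q (f t g) (x t) (y t)) t)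
    (hden : 0 < √(1 + x t * y t) * p (f t g * dg (x t) (y t)) + (x t + y t) * q (f t g * dg (x t) (y t)))
    (hb : |x t| ≤ 1 / 8) (hc : |y t| ≤ 1 / 8) :
    CLO_D (fun s => f s g * dg (x s) (y s)) (p (f t g * dg (x t) (y t)) * sg p q (f t g) (x t) (y t))
      (q (f t g * dg (x t) (y t)) * sg p q (f t g) (x t) (y t)) t := by
  have hpos := SYN_pos hb hc
  have hsq := SYN_sqrt hb hc
  have halg := NSY_alg (f t g) hden
  obtain ⟨P, hP⟩ : ∃ P, P = p (f t g * dg (x t) (y t)) * sg p q (f t g) (x t) (y t) := ⟨_, rfl⟩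
  obtain ⟨Q, hQ⟩ : ∃ Q, Q = q (f t g * dg (x t) (y t)) * sg p q (f t g) (x t) (y t) := ⟨_, rfl⟩
  obtain ⟨A, hA⟩ : ∃ A, A = √(1 + x t * y t) := ⟨_, rfl⟩
  have hu' : hu p q (f t g) (x t) (y t) = ((P + p (f t g)) / 2 - 1) * x t + A * (Q - q (f t g)) := by
    rw [hP, hQ, hA]
    rfl
  have hv' : hv p q (f t g) (x t) (y t) = ((P + p (f t g)) / 2 - 1) * y t + A * (Q - q (f t g)) := by
    rw [hP, hQ, hA]
    rfl
  rw [hu'] at hdx
  rw [hv'] at hdy
  rw [← hP, ← hQ, ← hA] at halg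
  rw [← hP, ← hQ]
  rw [← hA] at hsq
  have hA0 : A ≠ 0 := by
    intro h
    rw [h] at hsq
    norm_num at hsq
  -- the derivative of the square root
  have hdA : HasDerivAt (fun s => √(1 + x s * y s)) ((x t - y t) * (Q - q (f t g)) / 2) t := by
    have h1 : HasDerivAt (fun s => 1 + x s * y s) ((-x t - (((P + p (f t g)) / 2 - 1) * x t + A * (Q - q (f t g)))) * y t +
        x t * (y t + (((P + p (f t g)) / 2 - 1) * y t + A * (Q - q (f t g))))) t := (hdx.mul hdy).const_add 1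
    have h2 := h1.sqrt (by linarith)
    refine h2.congr_deriv ?_
    rw [← hA]
    field_simp
    ring
  -- the entries near `t`
  have hev : ∀ᶠ s in 𝓝 t, 0 ≤ 1 + x s * y s := by
    have h1 : ContinuousAt (fun s => 1 + x s * y s) t :=
      continuousAt_const.add (hdx.continuousAt.mul hdy.continuousAt)
    have h2 : ∀ᶠ s in 𝓝 t, 0 < 1 + x s * y s := h1.eventually (lt_mem_nhds (by linarith))
    exact h2.mono fun s hs => hs.le
  have ent : ∀ s, 0 ≤ 1 + x s * y s → ∀ i : Fin 2,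
      (f s g * dg (x s) (y s)).1 i 0 = (f s g).1 i 0 * √(1 + x s * y s) + (f s g).1 i 1 * y s ∧
      (f s g * dg (x s) (y s)).1 i 1 = (f s g).1 i 0 * x s + (f s g).1 i 1 * √(1 + x s * y s) := by
    intro s hs i
    have h1 : (f s g * dg (x s) (y s)).1 = (f s g).1 * (dg (x s) (y s)).1 := rfl
    rw [h1, SYN_dg hs]
    constructor <;> simp [Matrix.mul_apply, Fin.sum_univ_two]
  have ht1 : 0 ≤ 1 + x t * y t := by linarith
  constructor
  · intro i
    have h1 : HasDerivAt (fun s => (f s g).1 i 0 * √(1 + x s * y s) + (f s g).1 i 1 * y s)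
        (((f t g).1 i 0 * (p (f t g) / 2) + (f t g).1 i 1 * q (f t g)) * √(1 + x t * y t) +
          (f t g).1 i 0 * ((x t - y t) * (Q - q (f t g)) / 2) +
          ((-((f t g).1 i 0 * q (f t g)) - (f t g).1 i 1 * (p (f t g) / 2)) * y t +
          (f t g).1 i 1 * (y t + (((P + p (f t g)) / 2 - 1) * y t + A * (Q - q (f t g)))))) t :=
      ((hf.d0 i t g).mul hdA).add ((hf.d1 i t g).mul hdy)
    have h2 : (fun s => (f s g * dg (x s) (y s)).1 i 0) =ᶠ[𝓝 t]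
        fun s => (f s g).1 i 0 * √(1 + x s * y s) + (f s g).1 i 1 * y s :=
      hev.mono fun s hs => (ent s hs i).1
    refine (h1.congr_of_eventuallyEq h2).congr_deriv ?_
    rw [(ent t ht1 i).1, (ent t ht1 i).2, ← hA]
    linear_combination (-(f t g).1 i 0 / 2) * halg
  · intro i
    have h1 : HasDerivAt (fun s => (f s g).1 i 0 * x s + (f s g).1 i 1 * √(1 + x s * y s))
        (((f t g).1 i 0 * (p (f t g) / 2) + (f t g).1 i 1 * q (f t g)) * x t +
          (f t g).1 i 0 * (-x t - (((P + p (f t g)) / 2 - 1) * x t + A * (Q - q (f t g)))) +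
          ((-((f t g).1 i 0 * q (f t g)) - (f t g).1 i 1 * (p (f t g) / 2)) * √(1 + x t * y t) +
          (f t g).1 i 1 * ((x t - y t) * (Q - q (f t g)) / 2))) t :=
      ((hf.d0 i t g).mul hdx).add ((hf.d1 i t g).mul hdA)
    have h2 : (fun s => (f s g * dg (x s) (y s)).1 i 1) =ᶠ[𝓝 t]
        fun s => (f s g).1 i 0 * x s + (f s g).1 i 1 * √(1 + x s * y s) :=
      hev.mono fun s hs => (ent s hs i).2
    refine (h1.congr_of_eventuallyEq h2).congr_deriv ?_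
    rw [(ent t ht1 i).1, (ent t ht1 i).2, ← hA]
    linear_combination ((f t g).1 i 1 / 2) * halg

theorem NSY_p0 {K : ℝ} {X : Fd} (hK : 1 ≤ K) (hX : HF K X) (g : SL(2, ℝ)) : 0 < X.p g :=
  lt_of_lt_of_le (by positivity) (hX.pb g).1

/-- the derivatives of `bj`, `cj` along a pair -/
theorem NSY_dxy {K : ℝ} {X : Fd} (hK : 1 ≤ K) (hX : HF K X) {g : SL(2, ℝ)} {J W : ℝ → ℝ} {t : ℝ}
    (hJ : HasDerivAt J (FJ X (X.f t g) (J t) (W t)) t) (hW : HasDerivAt W (FW X (X.f t g) (J t) (W t)) t) :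
    HasDerivAt (fun s => bj X (X.f s g) (J s) (W s)) (-(bj X (X.f t g) (J t) (W t)) -
      hu X.p X.q (X.f t g) (bj X (X.f t g) (J t) (W t)) (cj X (X.f t g) (J t) (W t))) t ∧
    HasDerivAt (fun s => cj X (X.f s g) (J s) (W s)) (cj X (X.f t g) (J t) (W t) +
      hv X.p X.q (X.f t g) (bj X (X.f t g) (J t) (W t)) (cj X (X.f t g) (J t) (W t))) t := by
  have hp := hX.dp t g
  have hm := hX.dm t g
  have hp0 : X.p (X.f t g) ≠ 0 := (NSY_p0 hK hX _).ne'
  obtain ⟨u, hu1⟩ : ∃ u, u = uj X (X.f t g) (J t) (W t) := ⟨_, rfl⟩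
  obtain ⟨v, hv1⟩ : ∃ v, v = vj X (X.f t g) (J t) (W t) := ⟨_, rfl⟩
  have hu2 : hu X.p X.q (X.f t g) (bj X (X.f t g) (J t) (W t)) (cj X (X.f t g) (J t) (W t)) = u := hu1.symm
  have hv2 : hv X.p X.q (X.f t g) (bj X (X.f t g) (J t) (W t)) (cj X (X.f t g) (J t) (W t)) = v := hv1.symm
  rw [hu2, hv2]
  unfold FJ at hJ
  unfold FW at hW
  rw [← hu1, ← hv1] at hJ hW
  constructor
  · have h := (hW.sub (((hm.const_add 1).mul hJ).div hp hp0)).div_const 2
    refine HasDerivAt.congr_deriv h ?_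
    unfold bj cj
    simp only [Pi.mul_apply]
    field_simp
    ring
  · have h := (hW.neg.sub (((hm.const_sub 1).mul hJ).div hp hp0)).div_const 2
    refine HasDerivAt.congr_deriv h ?_
    unfold bj cj
    simp only [Pi.mul_apply]
    field_simp
    ring

/-- `bj`, `cj` are small -/
theorem NSY_small {K : ℝ} {X : Fd} (hK : 1 ≤ K) (hX : HF K X) (g : SL(2, ℝ)) {J W : ℝ}
    (h : |J| + |W| ≤ 1 / (32 * K ^ 4)) : |bj X g J W| ≤ 1 / (32 * K ^ 2) ∧ |cj X g J W| ≤ 1 / (32 * K ^ 2) := by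
  have hK0 : 0 < K := by linarith
  have hp := NSY_p0 hK hX g
  obtain ⟨-, hm, -⟩ := hX.qb g
  have h1 : |J / X.p g| ≤ K * |J| := by
    rw [abs_div, abs_of_pos hp, div_le_iff₀ hp]
    have h2 : 1 ≤ K * X.p g := by
      have := (hX.pb g).1
      rw [div_le_iff₀ hK0] at this
      linarith
    nlinarith [abs_nonneg J]
  have key : ∀ a w : ℝ, |a| ≤ 1 + K → |w| = |W| → |(w - a * J / X.p g) / 2| ≤ 1 / (32 * K ^ 2) := by
    intro a w ha hw
    have h3 : |a * J / X.p g| ≤ (1 + K) * (K * |J|) := by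
      rw [mul_div_assoc, abs_mul]
      exact mul_le_mul ha h1 (abs_nonneg _) (by positivity)
    have h4 : |w - a * J / X.p g| ≤ |W| + (1 + K) * (K * |J|) := by
      have := abs_sub w (a * J / X.p g)
      linarith
    have h5 : |W| + (1 + K) * (K * |J|) ≤ 2 * K ^ 2 * (|J| + |W|) := by
      have e1 : (1 + K) * K ≤ 2 * K ^ 2 := by nlinarith
      have e2 : 1 ≤ 2 * K ^ 2 := by nlinarith
      have e3 := mul_le_mul_of_nonneg_right e1 (abs_nonneg J)
      have e4 := mul_le_mul_of_nonneg_right e2 (abs_nonneg W)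
      nlinarith
    have h6 : 2 * K ^ 2 * (|J| + |W|) ≤ 2 * K ^ 2 * (1 / (32 * K ^ 4)) :=
      mul_le_mul_of_nonneg_left h (by positivity)
    have h7 : 2 * K ^ 2 * (1 / (32 * K ^ 4)) = 2 * (1 / (32 * K ^ 2)) := by
      field_simp
    rw [abs_div, abs_of_pos (by norm_num : (0 : ℝ) < 2), div_le_iff₀ (by norm_num)]
    linarith
  constructor
  · exact key (1 + X.m g) W (by have := abs_add_le 1 (X.m g); rw [abs_one] at this; linarith) rfl
  · exact key (1 - X.m g) (-W) (by have := abs_sub 1 (X.m g); rw [abs_one] at this; linarith) (abs_neg W)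

/-- the denominator and the speed -/
theorem NSY_sg {K : ℝ} {X : Fd} (hK : 1 ≤ K) (hX : HF K X) (g : SL(2, ℝ)) {b c : ℝ}
    (hb : |b| ≤ 1 / (32 * K ^ 2)) (hc : |c| ≤ 1 / (32 * K ^ 2)) : |b| ≤ 1 / 8 ∧ |c| ≤ 1 / 8 ∧
    (∀ g', 0 < √(1 + b * c) * X.p g' + (b + c) * X.q g') ∧ |sg X.p X.q g b c| ≤ 6 * K ^ 2 := by
  have hK0 : 0 < K := by linarith
  have h1 : 1 / (32 * K ^ 2) ≤ 1 / 8 := by
    apply one_div_le_one_div_of_le (by norm_num)
    nlinarith
  have hb' := hb.trans h1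
  have hc' := hc.trans h1
  have hs := SYN_sqrt hb' hc'
  have hs2 : √(1 + b * c) ≤ 2 := by
    rw [Real.sqrt_le_left (by norm_num)]
    have h2 := mul_le_mul hb' hc' (abs_nonneg _) (by norm_num)
    rw [← abs_mul] at h2
    have := le_abs_self (b * c)
    linarith
  have hq : ∀ g', |(b + c) * X.q g'| ≤ 1 / (16 * K) := by
    intro g'
    rw [abs_mul]
    have h2 : |b + c| ≤ 1 / (16 * K ^ 2) := by
      have e1 := abs_add_le b c
      have e2 : 1 / (32 * K ^ 2) + 1 / (32 * K ^ 2) = 1 / (16 * K ^ 2) := by field_simp; norm_num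
      linarith
    calc |b + c| * |X.q g'| ≤ 1 / (16 * K ^ 2) * K :=
          mul_le_mul h2 (hX.qb g').1 (abs_nonneg _) (by positivity)
      _ = 1 / (16 * K) := by field_simp
  have hden : ∀ g', 1 / (2 * K) ≤ √(1 + b * c) * X.p g' + (b + c) * X.q g' := by
    intro g'
    have e1 : 63 / 64 * (1 / K) ≤ √(1 + b * c) * X.p g' :=
      mul_le_mul hs (hX.pb g').1 (by positivity) (by linarith)
    have e2 := neg_abs_le ((b + c) * X.q g')
    have e3 := hq g'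
    have e4 : 63 / 64 * (1 / K) - 1 / (16 * K) - 1 / (2 * K) = 27 / 64 * (1 / K) := by
      field_simp; norm_num
    have e5 : 0 < 27 / 64 * (1 / K) := by positivity
    linarith
  have hpos : ∀ g', 0 < √(1 + b * c) * X.p g' + (b + c) * X.q g' := fun g' =>
    lt_of_lt_of_le (by positivity) (hden g')
  refine ⟨hb', hc', hpos, ?_⟩
  unfold sg
  rw [abs_div, abs_of_pos (hpos _), div_le_iff₀ (hpos _)]
  have e1 : |√(1 + b * c) * X.p g| ≤ 2 * K := by
    rw [abs_mul, abs_of_nonneg (Real.sqrt_nonneg _), abs_of_pos (NSY_p0 hK hX g)]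
    exact mul_le_mul hs2 (hX.pb g).2 (NSY_p0 hK hX g).le (by norm_num)
  have e2 := hq g
  have e3 : 1 / (16 * K) ≤ K := by
    rw [div_le_iff₀ (by positivity)]
    nlinarith
  have e4 := abs_sub (√(1 + b * c) * X.p g) ((b + c) * X.q g)
  have e5 : 6 * K ^ 2 * (1 / (2 * K)) ≤ 6 * K ^ 2 * (√(1 + b * c) * X.p (g * dg b c) + (b + c) * X.q (g * dg b c)) :=
    mul_le_mul_of_nonneg_left (hden _) (by positivity)
  have e6 : 6 * K ^ 2 * (1 / (2 * K)) = 3 * K := by field_simp; norm_num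
  linarith

theorem NSY_proof (h1 : VQE.NMB_stmt) (h2 : NCH_stmt) : NSY_stmt := by
  intro K hK
  have hK0 : 0 < K := by linarith
  refine ⟨1 / (32 * K ^ 4), by positivity, ?_⟩
  intro X g T J W hX hP t ht
  obtain ⟨C0, -, hNCH⟩ := h2 K hK
  obtain ⟨-, -, -, -, -, hpc, hqc, hmc, -, -⟩ := hNCH X hX
  have hf := hX.flw
  have hT : 0 ≤ T := ht.1.trans ht.2
  -- the pair
  obtain ⟨x, hx⟩ : ∃ x : ℝ → ℝ, x = fun s => bj X (X.f s g) (J s) (W s) := ⟨_, rfl⟩
  obtain ⟨y, hy⟩ : ∃ y : ℝ → ℝ, y = fun s => cj X (X.f s g) (J s) (W s) := ⟨_, rfl⟩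
  have hxd : ∀ s ∈ Icc (0 : ℝ) T, HasDerivAt x (-(x s) - hu X.p X.q (X.f s g) (x s) (y s)) s := by
    intro s hs
    rw [hx, hy]
    exact (NSY_dxy hK hX (hP.dJ s hs) (hP.dW s hs)).1
  have hyd : ∀ s ∈ Icc (0 : ℝ) T, HasDerivAt y (y s + hv X.p X.q (X.f s g) (x s) (y s)) s := by
    intro s hs
    rw [hx, hy]
    exact (NSY_dxy hK hX (hP.dJ s hs) (hP.dW s hs)).2
  have hxs : ∀ s ∈ Icc (0 : ℝ) T, |x s| ≤ 1 / (32 * K ^ 2) := by
    intro s hs
    rw [hx]
    exact (NSY_small hK hX _ (hP.bd s hs)).1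
  have hys : ∀ s ∈ Icc (0 : ℝ) T, |y s| ≤ 1 / (32 * K ^ 2) := by
    intro s hs
    rw [hy]
    exact (NSY_small hK hX _ (hP.bd s hs)).2
  -- the projection to the interval
  obtain ⟨π, hπ⟩ : ∃ π : ℝ → ℝ, π = fun s => max 0 (min s T) := ⟨_, rfl⟩
  have hπc : Continuous π := by rw [hπ]; fun_prop
  have hπm : ∀ s, π s ∈ Icc (0 : ℝ) T := by
    intro s
    rw [hπ]
    exact ⟨le_max_left _ _, max_le hT (min_le_right _ _)⟩
  have hπe : ∀ s ∈ Icc (0 : ℝ) T, π s = s := by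
    intro s hs
    rw [hπ]
    simp only [min_eq_left hs.2, max_eq_right hs.1]
  -- the speed
  obtain ⟨τ', hτ'⟩ : ∃ τ' : ℝ → ℝ, τ' = fun s => sg X.p X.q (X.f (π s) g) (x (π s)) (y (π s)) := ⟨_, rfl⟩
  have hXc : Continuous (fun s => x (π s)) := by
    rw [continuous_iff_continuousAt]
    intro s
    exact ContinuousAt.comp (f := π) (g := x) ((hxd _ (hπm s)).continuousAt) hπc.continuousAt
  have hYc : Continuous (fun s => y (π s)) := by
    rw [continuous_iff_continuousAt]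
    intro s
    exact ContinuousAt.comp (f := π) (g := y) ((hyd _ (hπm s)).continuousAt) hπc.continuousAt
  have hFc : Continuous (fun s => X.f (π s) g) := (CLO_orbit_cont hf g).comp hπc
  have hS : ∀ s, |x (π s)| ≤ 1 / 8 ∧ |y (π s)| ≤ 1 / 8 ∧
      (∀ g', 0 < √(1 + x (π s) * y (π s)) * X.p g' + (x (π s) + y (π s)) * X.q g') ∧ |τ' s| ≤ 6 * K ^ 2 := by
    intro s
    rw [hτ']
    exact NSY_sg hK hX (X.f (π s) g) (hxs _ (hπm s)) (hys _ (hπm s))
  have hpos : ∀ s, 0 ≤ 1 + x (π s) * y (π s) := fun s => by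
    have := SYN_pos (hS s).1 (hS s).2.1
    linarith
  have hDc : Continuous (fun s => dg (x (π s)) (y (π s))) := SYN_dgc hXc hYc hpos
  have hτc : Continuous τ' := by
    rw [hτ']
    unfold sg
    refine Continuous.div ?_ ?_ ?_
    · exact ((Real.continuous_sqrt.comp (continuous_const.add (hXc.mul hYc))).mul (hpc.comp hFc)).sub
        ((hXc.add hYc).mul (hqc.comp hFc))
    · exact ((Real.continuous_sqrt.comp (continuous_const.add (hXc.mul hYc))).mul (hpc.comp (hFc.mul hDc))).add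
        ((hXc.add hYc).mul (hqc.comp (hFc.mul hDc)))
    · intro s
      exact ((hS s).2.2.1 _).ne'
  have hτb : ∀ s, |τ' s| ≤ 6 * K ^ 2 := fun s => (hS s).2.2.2
  have hτd : ∀ s, HasDerivAt (fun u => ∫ r in (0 : ℝ)..u, τ' r) (τ' s) s := fun s =>
    intervalIntegral.integral_hasDerivAt_right (hτc.intervalIntegrable _ _)
      (hτc.stronglyMeasurableAtFilter _ _) hτc.continuousAt
  have hττ : ∀ s ∈ Icc (0 : ℝ) T, τ' s = sg X.p X.q (X.f s g) (x s) (y s) := by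
    intro s hs
    rw [hτ']
    simp only [hπe s hs]
  have hint : ∫ s in (0 : ℝ)..t, sj X (X.f s g) (J s) (W s) = ∫ s in (0 : ℝ)..t, τ' s := by
    refine intervalIntegral.integral_congr fun s hs => ?_
    rw [Set.uIcc_of_le ht.1] at hs
    rw [hττ s ⟨hs.1, hs.2.trans ht.2⟩, hx, hy]
    rfl
  have hpj : ∀ s, pj X (X.f s g) (J s) (W s) = dg (x s) (y s) := by
    intro s
    rw [hx, hy]
    rfl
  have hpj0 : pj X g (J 0) (W 0) = dg (x 0) (y 0) := by
    have := hpj 0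
    rw [hf.zero] at this
    exact this
  rw [hint, hpj t, hpj0]
  obtain ⟨g2, hg2⟩ : ∃ g2, g2 = g * dg (x 0) (y 0) := ⟨_, rfl⟩
  rw [← hg2]
  -- the two orbits
  have hD2 : ∀ s ∈ Icc (0 : ℝ) T, CLO_D (fun s => X.f s g * dg (x s) (y s)) (X.p (X.f s g * dg (x s) (y s)) * τ' s)
      (X.q (X.f s g * dg (x s) (y s)) * τ' s) s := by
    intro s hs
    have hSs := NSY_sg hK hX (X.f s g) (hxs s hs) (hys s hs)
    rw [hττ s hs]
    exact NSY_D2 hf (hxd s hs) (hyd s hs) (hSs.2.2.1 _) hSs.1 hSs.2.1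
  have hD3 : ∀ s, CLO_D (fun s => X.f (∫ r in (0 : ℝ)..s, τ' r) g2) (X.p (X.f (∫ r in (0 : ℝ)..s, τ' r) g2) * τ' s)
      (X.q (X.f (∫ r in (0 : ℝ)..s, τ' r) g2) * τ' s) s := by
    intro s
    constructor
    · intro i
      have h5 := (hf.d0 i (∫ r in (0 : ℝ)..s, τ' r) g2).comp s (hτd s)
      refine HasDerivAt.congr_deriv h5 ?_
      ring
    · intro i
      have h5 := (hf.d1 i (∫ r in (0 : ℝ)..s, τ' r) g2).comp s (hτd s)
      refine HasDerivAt.congr_deriv h5 ?_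
      ring
  have hVd : ∀ s ∈ Icc (0 : ℝ) T, HasDerivAt (fun s => CLO_V ((X.f s g * dg (x s) (y s))⁻¹ * X.f (∫ r in (0 : ℝ)..s, τ' r) g2))
      (CLO_V' ((X.f s g * dg (x s) (y s))⁻¹ * X.f (∫ r in (0 : ℝ)..s, τ' r) g2) (X.p (X.f s g * dg (x s) (y s)) * τ' s)
        (X.q (X.f s g * dg (x s) (y s)) * τ' s) (X.p (X.f (∫ r in (0 : ℝ)..s, τ' r) g2) * τ' s)
        (X.q (X.f (∫ r in (0 : ℝ)..s, τ' r) g2) * τ' s)) s := fun s hs =>
    CLO_deriv (fun s => X.f s g * dg (x s) (y s)) (fun s => X.f (∫ r in (0 : ℝ)..s, τ' r) g2) _ _ _ _ s (hD2 s hs) (hD3 s)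
  have hsub : ∀ s, 0 ≤ s → s ≤ t → s ∈ Icc (0 : ℝ) T := fun s h0 h3 => ⟨h0, h3.trans ht.2⟩
  have hgr := CLO_gron (fun s => X.f s g * dg (x s) (y s)) (fun s => X.f (∫ r in (0 : ℝ)..s, τ' r) g2)
    (fun s => CLO_V' ((X.f s g * dg (x s) (y s))⁻¹ * X.f (∫ r in (0 : ℝ)..s, τ' r) g2) (X.p (X.f s g * dg (x s) (y s)) * τ' s)
        (X.q (X.f s g * dg (x s) (y s)) * τ' s) (X.p (X.f (∫ r in (0 : ℝ)..s, τ' r) g2) * τ' s)
        (X.q (X.f (∫ r in (0 : ℝ)..s, τ' r) g2) * τ' s)) t (24 * K ^ 3) 0 (by positivity) (by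
      simp only [intervalIntegral.integral_same]
      rw [hf.zero, hf.zero, hg2]) (fun s hs => (hVd s (hsub s hs.1 hs.2)).continuousAt.continuousWithinAt)
    (fun s hs => (hVd s (hsub s hs.1 hs.2.le)).hasDerivWithinAt) (by
      intro s hs
      obtain ⟨A, hA⟩ : ∃ A, A = X.f s g * dg (x s) (y s) := ⟨_, rfl⟩
      obtain ⟨B, hB⟩ : ∃ B, B = X.f (∫ r in (0 : ℝ)..s, τ' r) g2 := ⟨_, rfl⟩
      show ‖CLO_V' ((X.f s g * dg (x s) (y s))⁻¹ * X.f (∫ r in (0 : ℝ)..s, τ' r) g2) (X.p (X.f s g * dg (x s) (y s)) * τ' s)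
        (X.q (X.f s g * dg (x s) (y s)) * τ' s) (X.p (X.f (∫ r in (0 : ℝ)..s, τ' r) g2) * τ' s)
        (X.q (X.f (∫ r in (0 : ℝ)..s, τ' r) g2) * τ' s)‖ ≤
        24 * K ^ 3 * nm ((X.f s g * dg (x s) (y s))⁻¹ * X.f (∫ r in (0 : ℝ)..s, τ' r) g2) + 0
      rw [← hA, ← hB]
      obtain ⟨E, hE⟩ : ∃ E, E = A⁻¹ * B := ⟨_, rfl⟩
      have hBE : B = A * E := by rw [hE]; group
      rw [← hE, hBE]
      have hn : 0 ≤ nm E := h1.1 E
      have hpb : ∀ g, |X.p g| ≤ K := fun g => by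
        rw [abs_of_pos (NSY_p0 hK hX g)]
        exact (hX.pb g).2
      obtain ⟨l1, l2, -, -⟩ := hX.lip A E
      have c1 : ∀ g, |X.p g * τ' s| ≤ K * (6 * K ^ 2) := fun g => by
        rw [abs_mul]
        exact mul_le_mul (hpb g) (hτb s) (abs_nonneg _) hK0.le
      have c2 : ∀ g, |X.q g * τ' s| ≤ K * (6 * K ^ 2) := fun g => by
        rw [abs_mul]
        exact mul_le_mul (hX.qb g).1 (hτb s) (abs_nonneg _) hK0.le
      have c3 : |X.p (A * E) * τ' s - X.p A * τ' s| ≤ K * nm E * (6 * K ^ 2) := by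
        rw [← sub_mul, abs_mul]
        exact mul_le_mul l1 (hτb s) (abs_nonneg _) (by positivity)
      have c4 : |X.q (A * E) * τ' s - X.q A * τ' s| ≤ K * nm E * (6 * K ^ 2) := by
        rw [← sub_mul, abs_mul]
        exact mul_le_mul l2 (hτb s) (abs_nonneg _) (by positivity)
      refine (CLO_bound E _ _ _ _ (K * (6 * K ^ 2)) (K * (6 * K ^ 2)) (K * nm E * (6 * K ^ 2)) (c1 _) (c1 _) (c2 _) (c2 _) c3 c4).trans ?_
      have hc : (K * (6 * K ^ 2) + 2 * (K * (6 * K ^ 2))) * nm E + K * nm E * (6 * K ^ 2) = 24 * K ^ 3 * nm E + 0 := by ring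
      rw [hc]) t ⟨ht.1, le_refl t⟩
  have h0 : nm ((X.f t g * dg (x t) (y t))⁻¹ * X.f (∫ r in (0 : ℝ)..t, τ' r) g2) = 0 := by
    refine le_antisymm (hgr.trans ?_) (h1.1 _)
    simp
  have h3 := (h1.2.1 _).1 h0
  have h4 := eq_of_inv_mul_eq_one h3
  exact h4.symm

end

end Pool.Agent.VNE
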